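import Pool.Agent.Q265.BM.C

/-! # Maps of the projective line which are unramified outside a finite set of rational points -/

set_option autoImplicit false

open NumberField Height Function Polynomial

namespace Q265.BM

open Q241.AK Q265.NF

variable {K : Type*} [Field K] [NumberField K]

/-- the primes outside `S` at which `t` meets one of the points `a i` or infinity -/
def Us (S : Finset (FinitePlace K)) {m : ℕ} (a : Fin m → K) (t : K) : Set (FinitePlace K) :=
  {v | v ∉ S ∧ ((∃ i, Meets v (a i) t) ∨ 1 < v t)}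

lemma Us_fin (S : Finset (FinitePlace K)) {m : ℕ} {a : Fin m → K} {t : K} (h : ∀ i, t ≠ a i) :
    (Us S a t).Finite := by
  refine ((Set.finite_iUnion fun i => Ms_fin S (h i)).union (Mi_fin S t)).subset fun v hv => ?_
  rcases hv.2 with ⟨i, hi⟩ | h1
  · left
    rw [Set.mem_iUnion]
    exact ⟨i, hv.1, hi⟩
  · exact Or.inr ⟨hv.1, h1⟩

/-- the truncated Vojta inequality for the points `a i` and infinity, at the points in `T` -/
def VIneq {m : ℕ} (a : Fin m → K) (T : Set K) : Prop :=
  ∀ S : Finset (FinitePlace K), ∀ ε : ℝ, 0 < ε → ∃ C : ℝ, ∀ t ∈ T, (∀ i, t ≠ a i) →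
    ((m : ℝ) - 1 - ε) * logHeight₁ t ≤ Real.log (PP (Us S a t)) + C

/-- the image of `T` -/
def ImgOf (p q : K[X]) (T : Set K) : Set K := {y | ∃ t ∈ T, q.eval t ≠ 0 ∧ y = p.eval t / q.eval t}

/-- the polynomial whose roots are the finite points with `f ∈ {b j} ∪ {∞}` -/
noncomputable def Pol (p q : K[X]) {k : ℕ} (b : Fin k → K) : K[X] :=
  q * ∏ j, (p - C (b j) * q)

lemma prod_one {k : ℕ} {f : Fin k → ℝ} (h0 : ∀ i, 0 ≤ f i) (h1 : ∀ i, f i ≤ 1)
    {c : ℝ} (hc0 : 0 ≤ c) (hc1 : c ≤ 1) (h : c * ∏ i, f i = 1) : c = 1 ∧ ∀ i, f i = 1 := by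
  have hp : ∏ i, f i ≤ 1 := Finset.prod_le_one (fun i _ => h0 i) fun i _ => h1 i
  have hp0 : 0 ≤ ∏ i, f i := Finset.prod_nonneg fun i _ => h0 i
  have hc : c = 1 := by
    refine le_antisymm hc1 ?_
    calc (1 : ℝ) = c * ∏ i, f i := h.symm
      _ ≤ c * 1 := by gcongr
      _ = c := mul_one c
  refine ⟨hc, fun i => le_antisymm (h1 i) ?_⟩
  rw [hc, one_mul] at h
  calc (1 : ℝ) = ∏ i, f i := h.symm
    _ = f i * ∏ j ∈ Finset.univ.erase i, f j := (Finset.mul_prod_erase _ _ (Finset.mem_univ i)).symm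
    _ ≤ f i * 1 := by
      gcongr
      · exact h0 i
      · exact Finset.prod_le_one (fun j _ => h0 j) fun j _ => h1 j
    _ = f i := mul_one _

/-- **The main theorem for general maps** -/
theorem general {p q : K[X]} {d : ℕ} (hd : 1 ≤ d) (hcop : IsCoprime p q) (hp : p.natDegree ≤ d)
    (hq : q.natDegree ≤ d) (hpq : p.natDegree = d ∨ q.natDegree = d) {k : ℕ} (hk : 2 ≤ k)
    (b : Fin k → K) {r : K[X]} (hr1 : r ∣ Pol p q b) {NN : ℕ} (hNN : Pol p q b ∣ r ^ NN)
    (hne : Pol p q b ≠ 0) (hrad : r.natDegree ≤ d * (k - 1) + 1) {m : ℕ} (a : Fin m → K)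
    (hinj : Function.Injective a) (ha : ∀ i, (Pol p q b).eval (a i) = 0) (T : Set K)
    (H : VIneq b (ImgOf p q T)) : VIneq a T := by
  classical
  obtain ⟨P0, hP0⟩ : ∃ P0 : K[X], P0 = Pol p q b := ⟨_, rfl⟩
  rw [← hP0] at hr1 hNN ha hne
  have hr0 : r ≠ 0 := by
    rintro rfl
    exact hne (zero_dvd_iff.1 hr1)
  have hlinr : ∀ i, X - C (a i) ∣ r := by
    intro i
    have h1 : X - C (a i) ∣ P0 := dvd_iff_isRoot.2 (ha i)
    exact (prime_X_sub_C (a i)).dvd_of_dvd_pow (h1.trans hNN)
  obtain ⟨mm, hmm⟩ := hNN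
  -- the product of the linear factors
  have hlin : ∏ i : Fin m, (X - C (a i)) ∣ r := by
    refine Finset.prod_dvd_of_coprime (fun i _ j _ hij => ?_) (fun i _ => ?_)
    · exact isCoprime_X_sub_C_of_isUnit_sub
        (sub_ne_zero.2 (fun h => hij (hinj h))).isUnit
    · exact hlinr i
  obtain ⟨g, hg⟩ := hlin
  have hg0 : g ≠ 0 := by
    rintro rfl
    rw [mul_zero] at hg
    exact hr0 hg
  have hlin0 : (∏ i : Fin m, (X - C (a i))) ≠ 0 := by
    intro h
    rw [h, zero_mul] at hg
    exact hr0 hg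
  obtain ⟨n, hn⟩ : ∃ n, n = g.natDegree := ⟨_, rfl⟩
  have hmn : m + n ≤ d * (k - 1) + 1 := by
    have h1 : r.natDegree = m + n := by
      rw [hg, natDegree_mul hlin0 hg0, ← hn, natDegree_prod_of_monic _ _
        (fun i _ => monic_X_sub_C (a i))]
      simp
    omega
  -- denominators
  obtain ⟨β, hβ0, hβ1, hβ⟩ := clear (K := K) (((p.support.image p.coeff ∪
    q.support.image q.coeff) ∪ (mm.support.image mm.coeff ∪ g.support.image g.coeff)) ∪
    (Finset.univ.image a ∪ Finset.univ.image b))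
  obtain ⟨B, hBdef⟩ : ∃ B : Set (FinitePlace K), B = {v | v β < 1} := ⟨_, rfl⟩
  have hBfin : B.Finite := by
    refine (FinitePlace.hasFiniteMulSupport hβ0).subset fun v hv => ?_
    rw [hBdef, Set.mem_ofPred_eq] at hv
    rw [mem_mulSupport]
    exact hv.ne
  have hco : ∀ P : K[X], P.support.image P.coeff ⊆
      (((p.support.image p.coeff ∪ q.support.image q.coeff) ∪
        (mm.support.image mm.coeff ∪ g.support.image g.coeff)) ∪
        (Finset.univ.image a ∪ Finset.univ.image b)) →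
      ∀ (v : FinitePlace K) (i : ℕ), v (β * P.coeff i) ≤ 1 := by
    intro P hP v i
    by_cases h : P.coeff i = 0
    · rw [h, mul_zero, map_zero]
      exact zero_le_one
    · exact hβ _ (hP (Finset.mem_image_of_mem _ (mem_support_iff.2 h))) v
  have cp := hco p (fun x hx => by simp only [Finset.mem_union]; tauto)
  have cq := hco q (fun x hx => by simp only [Finset.mem_union]; tauto)
  have cm := hco mm (fun x hx => by simp only [Finset.mem_union]; tauto)
  have cg := hco g (fun x hx => by simp only [Finset.mem_union]; tauto)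
  have ca : ∀ (v : FinitePlace K) (i : Fin m), v (β * a i) ≤ 1 := fun v i =>
    hβ _ (Finset.mem_union_right _ (Finset.mem_union_left _
      (Finset.mem_image_of_mem a (Finset.mem_univ i)))) v
  have cb : ∀ (v : FinitePlace K) (i : Fin k), v (β * b i) ≤ 1 := fun v i =>
    hβ _ (Finset.mem_union_right _ (Finset.mem_union_right _
      (Finset.mem_image_of_mem b (Finset.mem_univ i)))) v
  have hunit : ∀ v : FinitePlace K, v ∉ B → v β = 1 := by
    intro v hv
    rw [hBdef, Set.mem_ofPred_eq, not_lt] at hv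
    exact le_antisymm (hβ1 v) hv
  have good : ∀ v : FinitePlace K, v ∉ B → ∀ c : K, v (β * c) ≤ 1 → v c ≤ 1 := by
    intro v hv c hc
    rwa [map_mul, hunit v hv, one_mul] at hc
  -- the key property
  obtain ⟨Tg, hTg⟩ : ∃ Tg : K → Set (FinitePlace K), Tg = fun t =>
      {v | v ((C β * g).eval t) < (max (v t) 1) ^ n} := ⟨_, rfl⟩
  have key : ∀ (t : K) (v : FinitePlace K), v ∉ B → v t ≤ 1 → (∀ i, ¬ Meets v (a i) t) →
      v ∉ Tg t → v (p.eval t) ≤ 1 ∧ v (q.eval t) = 1 ∧
        ∀ j, v ((p - C (b j) * q).eval t) = 1 := by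
    intro t v hvB hvt hmeet hvg
    have hM : max (v t) 1 = 1 := max_eq_right hvt
    have ev : ∀ P : K[X], (∀ (v : FinitePlace K) (i : ℕ), v (β * P.coeff i) ≤ 1) →
        v (P.eval t) ≤ 1 := by
      intro P hP
      have := fin_eval v P (le_refl _) zero_le_one (fun i => good v hvB _ (hP v i)) t
      rwa [hM, one_pow, mul_one] at this
    have e1 := ev p cp
    have e2 := ev q cq
    have e3 := ev mm cm
    have e4 := ev g cg
    have e5 : ∀ j, v ((p - C (b j) * q).eval t) ≤ 1 := by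
      intro j
      rw [eval_sub, eval_mul, eval_C]
      have := FinitePlace.add_le v (p.eval t) (-(b j * q.eval t))
      rw [fneg', ← sub_eq_add_neg, map_mul] at this
      exact this.trans (max_le e1 (mul_le_one₀ (good v hvB _ (cb v j)) (by positivity) e2))
    have e6 : ∀ i, v (t - a i) = 1 := by
      intro i
      have h1 := hmeet i
      unfold Meets at h1
      rw [not_lt, hM, one_mul] at h1
      refine le_antisymm ?_ ((le_max_right _ _).trans h1)
      have := FinitePlace.add_le v t (-a i)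
      rw [fneg', ← sub_eq_add_neg] at this
      exact this.trans (max_le hvt (good v hvB _ (ca v i)))
    have e7 : v (g.eval t) = 1 := by
      refine le_antisymm e4 ?_
      rw [hTg, Set.mem_ofPred_eq, not_lt, hM, one_pow, eval_mul, eval_C, map_mul, hunit v hvB,
        one_mul] at hvg
      exact hvg
    have e8 : v (r.eval t) = 1 := by
      rw [hg, eval_mul, eval_prod, map_mul, e7, mul_one, map_prod]
      refine Finset.prod_eq_one fun i _ => ?_
      rw [eval_sub, eval_X, eval_C]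
      exact e6 i
    have e9 : v (q.eval t) * v (mm.eval t) * ∏ j, v ((p - C (b j) * q).eval t) = 1 := by
      have h1 : (r ^ NN).eval t = q.eval t * (∏ j, (p - C (b j) * q).eval t) * mm.eval t := by
        rw [hmm, hP0]
        unfold Pol
        rw [eval_mul, eval_mul, eval_prod]
      have h2 : v ((r ^ NN).eval t) = 1 := by
        rw [eval_pow, map_pow, e8, one_pow]
      rw [h1, map_mul, map_mul, map_prod] at h2
      linarith
    obtain ⟨f1, f2⟩ := prod_one (fun j => by positivity) e5 (by positivity)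
      (mul_le_one₀ e2 (by positivity) e3) e9
    refine ⟨e1, ?_, f2⟩
    refine le_antisymm e2 ?_
    calc (1 : ℝ) = v (q.eval t) * v (mm.eval t) := f1.symm
      _ ≤ v (q.eval t) * 1 := by gcongr
      _ = _ := mul_one _
  -- the constants
  obtain ⟨C1, hC1, low⟩ := height_low hd hcop hp hq hpq
  obtain ⟨C2, hC2, defg⟩ := defect_poly (C β * g) (n := n)
    (by rw [hn]; exact natDegree_C_mul_le β g) (fun v i => by rw [coeff_C_mul]; exact cg v i)
  -- the finitely many points over the points `b j` and infinity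
  obtain ⟨C3, hC3, hroots⟩ : ∃ C3 : ℝ, 0 ≤ C3 ∧ ∀ t : K, P0.eval t = 0 → logHeight₁ t ≤ C3 := by
    refine ⟨∑ t ∈ P0.roots.toFinset, logHeight₁ t,
      Finset.sum_nonneg fun t _ => zero_le_logHeight₁ t, fun t ht => ?_⟩
    exact Finset.single_le_sum (f := fun t => logHeight₁ t) (fun t _ => zero_le_logHeight₁ t)
      (Multiset.mem_toFinset.2 ((mem_roots hne).2 ht))
  intro S ε hε
  have hdr : (1 : ℝ) ≤ d := by exact_mod_cast hd
  have hkr : (2 : ℝ) ≤ k := by exact_mod_cast hk
  obtain ⟨ε', hε'⟩ : ∃ ε' : ℝ, ε' = min (ε / d) 1 := ⟨_, rfl⟩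
  have hε'0 : 0 < ε' := by rw [hε']; positivity
  have hε'1 : ε' ≤ 1 := by rw [hε']; exact min_le_right _ _
  have hε'd : ε' * d ≤ ε := by
    have : ε' ≤ ε / d := by rw [hε']; exact min_le_left _ _
    rwa [le_div_iff₀ (by linarith)] at this
  obtain ⟨C0, h0⟩ := H S ε' hε'0
  obtain ⟨PB, hPB⟩ : ∃ PB : ℝ, PB = Real.log (PP B) := ⟨_, rfl⟩
  have hPB0 : 0 ≤ PB := by rw [hPB]; exact log_PP_nonneg _
  refine ⟨PB + C2 + |C0| + k * C1 + |(m : ℝ) - 1 - ε| * C3, fun t htT hta => ?_⟩
  have hCn := log_PP_nonneg (Us S a t)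
  have hL := zero_le_logHeight₁ t
  obtain ⟨L, hLdef⟩ : ∃ L : ℝ, L = logHeight₁ t := ⟨_, rfl⟩
  have hlow := low t
  have hb0 := le_abs_self C0
  have hb1 : 0 ≤ |(m : ℝ) - 1 - ε| * C3 := by positivity
  have hb2 := abs_nonneg C0
  have hb3 : 0 ≤ k * C1 := by positivity
  by_cases hdegen : P0.eval t = 0
  · have h1 : logHeight₁ t ≤ C3 := hroots t hdegen
    rw [← hLdef] at h1 hL ⊢
    calc ((m : ℝ) - 1 - ε) * L ≤ |(m : ℝ) - 1 - ε| * L :=
          mul_le_mul_of_nonneg_right (le_abs_self _) hL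
      _ ≤ |(m : ℝ) - 1 - ε| * C3 := by gcongr
      _ ≤ _ := by linarith
  · rw [← hLdef] at hlow hL ⊢
    have hdegen' := hdegen
    rw [hP0] at hdegen'
    unfold Pol at hdegen'
    rw [eval_mul, eval_prod, mul_eq_zero, not_or, Finset.prod_eq_zero_iff] at hdegen'
    obtain ⟨n2, n3⟩ := hdegen'
    push Not at n3
    obtain ⟨y, hy⟩ : ∃ y : K, y = p.eval t / q.eval t := ⟨_, rfl⟩
    have hyb : ∀ j, y - b j = (p - C (b j) * q).eval t / q.eval t := by
      intro j
      rw [hy, eval_sub, eval_mul, eval_C]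
      field_simp
    have hyj : ∀ j, y ≠ b j := by
      intro j h
      have h1 := hyb j
      rw [h, sub_self] at h1
      exact (div_ne_zero (n3 j (Finset.mem_univ j)) n2) h1.symm
    have h2 := h0 y ⟨t, htT, n2, hy⟩ hyj
    rw [hy, logHeight₁_div_eq_logHeight, ← hy] at h2
    obtain ⟨A, hA⟩ : ∃ A : Set (FinitePlace K), A = Us S b y := ⟨_, rfl⟩
    rw [← hA] at h2
    have hgt : (C β * g).eval t ≠ 0 := by
      intro h
      rw [eval_mul, eval_C] at h
      have h3 : g.eval t = 0 := (mul_eq_zero.1 h).resolve_left hβ0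
      have h4 : r.eval t = 0 := by rw [hg, eval_mul, h3, mul_zero]
      apply hdegen
      obtain ⟨c, hc⟩ := hr1
      rw [hc, eval_mul, h4, zero_mul]
    obtain ⟨hTfin, hTlog⟩ := defg t hgt
    have hTg' : Tg t = {v | v ((C β * g).eval t) < (max (v t) 1) ^ n} := by rw [hTg]
    rw [← hTg', ← hLdef] at hTlog
    rw [← hTg'] at hTfin
    have hsub : A ⊆ B ∪ (Us S a t ∪ Tg t) := by
      intro v hv
      by_contra hcon
      rw [Set.mem_union, not_or, Set.mem_union, not_or] at hcon
      obtain ⟨k1, k2, k4⟩ := hcon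
      rw [hA] at hv
      obtain ⟨hvS, hv⟩ := hv
      have hvt : v t ≤ 1 := by
        by_contra h
        push Not at h
        exact k2 ⟨hvS, Or.inr h⟩
      have hmeet : ∀ i, ¬ Meets v (a i) t := fun i h => k2 ⟨hvS, Or.inl ⟨i, h⟩⟩
      obtain ⟨e1, e2, e3⟩ := key t v k1 hvt hmeet k4
      have f1 : v y ≤ 1 := by
        rw [hy, map_div₀, e2, div_one]
        exact e1
      rcases hv with ⟨j, hv⟩ | hv
      · unfold Meets at hv
        rw [hyb j, map_div₀, e3 j, e2, div_one, max_eq_right f1,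
          max_eq_right (good v k1 _ (cb v j)), mul_one] at hv
        exact lt_irrefl _ hv
      · linarith
    have hUfin : (Us S a t).Finite := Us_fin S hta
    have b1 := PP_log hBfin (hUfin.union hTfin) hsub
    have b2 := PP_log hUfin hTfin (subset_refl (Us S a t ∪ Tg t))
    rw [← hPB] at b1
    have b5 : Real.log (PP A) ≤ PB + Real.log (PP (Us S a t)) + (n * L + C2) := by
      linarith
    have hmnr : (m : ℝ) + n ≤ d * (k - 1) + 1 := by
      have : ((m + n : ℕ) : ℝ) ≤ ((d * (k - 1) + 1 : ℕ) : ℝ) := by exact_mod_cast hmn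
      push_cast [Nat.cast_sub (by omega : 1 ≤ k)] at this
      exact this
    have hε1 : 0 ≤ (k : ℝ) - 1 - ε' := by linarith
    have b6 : ((k : ℝ) - 1 - ε') * (d * L - C1) ≤
        ((k : ℝ) - 1 - ε') * logHeight ![p.eval t, q.eval t] :=
      mul_le_mul_of_nonneg_left (by linarith) hε1
    have b8 : ((k : ℝ) - 1 - ε') * (d * L) ≤
        Real.log (PP (Us S a t)) + n * L + (PB + C2 + |C0| + k * C1) := by
      have : ((k : ℝ) - 1 - ε') * C1 ≤ k * C1 := by
        apply mul_le_mul_of_nonneg_right _ hC1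
        linarith
      have e : ((k : ℝ) - 1 - ε') * (d * L - C1) =
          ((k : ℝ) - 1 - ε') * (d * L) - ((k : ℝ) - 1 - ε') * C1 := by ring
      rw [e] at b6
      linarith
    have b9 : ((m : ℝ) - 1 - ε) * L ≤ (((k : ℝ) - 1 - ε') * d - n) * L := by
      apply mul_le_mul_of_nonneg_right _ hL
      have : ((k : ℝ) - 1 - ε') * (d : ℝ) = d * (k - 1) - ε' * d := by ring
      rw [this]
      linarith
    have b10 : (((k : ℝ) - 1 - ε') * d - n) * L = ((k : ℝ) - 1 - ε') * (d * L) - n * L := by ring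
    rw [b10] at b9
    linarith

end Q265.BM
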