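import Pool.Agent.Q265.NF.A

/-! # Heights and primes for polynomials in one variable over a number field -/

set_option autoImplicit false

open NumberField Height Function Polynomial

namespace Q265.BM

open Q241.AK Q265.NF

variable {K : Type*} [Field K] [NumberField K]

lemma iSup2 (f : Fin 2 → ℝ) : iSup f = max (f 0) (f 1) := by
  refine le_antisymm (ciSup_le fun i => ?_) (max_le (Finite.le_ciSup f 0) (Finite.le_ciSup f 1))
  fin_cases i
  · exact le_max_left _ _
  · exact le_max_right _ _

lemma int_le_one (v : FinitePlace K) (r : 𝓞 K) : v (r : K) ≤ 1 := by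
  rw [← FinitePlace.norm_embedding_eq]
  exact FinitePlace.norm_le_one K v.maximalIdeal r

/-- common denominators -/
lemma clear (s : Finset K) : ∃ β : K, β ≠ 0 ∧ (∀ v : FinitePlace K, v β ≤ 1) ∧
    ∀ c ∈ s, ∀ v : FinitePlace K, v (β * c) ≤ 1 := by
  obtain ⟨b, hb⟩ := IsLocalization.exist_integer_multiples_of_finset (nonZeroDivisors (𝓞 K)) s
  refine ⟨algebraMap (𝓞 K) K b, ?_, fun v => int_le_one v b, fun c hc v => ?_⟩
  · have := nonZeroDivisors.ne_zero b.2
    intro h
    apply this
    exact (FaithfulSMul.algebraMap_eq_zero_iff (𝓞 K) K).1 h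
  · obtain ⟨r, hr⟩ := hb c hc
    have : algebraMap (𝓞 K) K b * c = algebraMap (𝓞 K) K r := by
      rw [hr, Algebra.smul_def]
    rw [this]
    exact int_le_one v r

omit [NumberField K] in
lemma iadd' (w : InfinitePlace K) (x y : K) : w (x + y) ≤ w x + w y := w.val.add_le x y

lemma fin_sum (v : FinitePlace K) {ι : Type*} (s : Finset ι) (f : ι → K) {B : ℝ} (hB : 0 ≤ B)
    (h : ∀ i ∈ s, v (f i) ≤ B) : v (∑ i ∈ s, f i) ≤ B := by
  classical
  induction s using Finset.induction_on with
  | empty =>
    rw [Finset.sum_empty, map_zero]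
    exact hB
  | insert j s hj ih =>
    rw [Finset.sum_insert hj]
    exact (FinitePlace.add_le v _ _).trans (max_le (h j (Finset.mem_insert_self j s))
      (ih fun i hi => h i (Finset.mem_insert_of_mem hi)))

/-- values at the finite places -/
lemma fin_eval (v : FinitePlace K) (P : K[X]) {n : ℕ} (hn : P.natDegree ≤ n) {B : ℝ} (hB : 0 ≤ B)
    (h : ∀ i, v (P.coeff i) ≤ B) (t : K) : v (P.eval t) ≤ B * (max (v t) 1) ^ n := by
  rw [eval_eq_sum_range]
  have hM : 1 ≤ max (v t) 1 := le_max_right _ _
  refine fin_sum v _ _ (by positivity) fun i hi => ?_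
  rw [Finset.mem_range] at hi
  rw [map_mul, map_pow]
  have h1 : v t ^ i ≤ (max (v t) 1) ^ n :=
    (pow_le_pow_left₀ (by positivity) (le_max_left _ _) i).trans
      (pow_le_pow_right₀ hM (by omega))
  exact mul_le_mul (h i) h1 (by positivity) hB

/-- values at the infinite places -/
lemma inf_eval (P : K[X]) : ∃ C : ℝ, 1 ≤ C ∧ ∀ n, P.natDegree ≤ n →
    ∀ (w : InfinitePlace K) (t : K), w (P.eval t) ≤ C * (max (w t) 1) ^ n := by
  refine ⟨1 + ∑ w : InfinitePlace K, ∑ i ∈ Finset.range (P.natDegree + 1), w (P.coeff i), ?_,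
    fun n hn w t => ?_⟩
  · have : 0 ≤ ∑ w : InfinitePlace K, ∑ i ∈ Finset.range (P.natDegree + 1), w (P.coeff i) :=
      Finset.sum_nonneg fun w _ => Finset.sum_nonneg fun i _ => by positivity
    linarith
  · have hM : 1 ≤ max (w t) 1 := le_max_right _ _
    rw [eval_eq_sum_range]
    have h1 : w (∑ i ∈ Finset.range (P.natDegree + 1), P.coeff i * t ^ i) ≤
        ∑ i ∈ Finset.range (P.natDegree + 1), w (P.coeff i * t ^ i) :=
      IsAbsoluteValue.abv_sum w.val _ _
    refine h1.trans ?_
    have h2 : ∀ i ∈ Finset.range (P.natDegree + 1), w (P.coeff i * t ^ i) ≤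
        w (P.coeff i) * (max (w t) 1) ^ n := by
      intro i hi
      rw [Finset.mem_range] at hi
      rw [map_mul, map_pow]
      have h1 : w t ^ i ≤ (max (w t) 1) ^ n :=
        (pow_le_pow_left₀ (by positivity) (le_max_left _ _) i).trans
          (pow_le_pow_right₀ hM (by omega))
      exact mul_le_mul_of_nonneg_left h1 (by positivity)
    refine (Finset.sum_le_sum h2).trans ?_
    rw [← Finset.sum_mul]
    have h3 : ∑ i ∈ Finset.range (P.natDegree + 1), w (P.coeff i) ≤
        ∑ w : InfinitePlace K, ∑ i ∈ Finset.range (P.natDegree + 1), w (P.coeff i) :=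
      Finset.single_le_sum (f := fun w : InfinitePlace K =>
        ∑ i ∈ Finset.range (P.natDegree + 1), w (P.coeff i))
        (fun w _ => Finset.sum_nonneg fun i _ => by positivity) (Finset.mem_univ w)
    gcongr
    linarith

lemma supp2 {z : Fin 2 → K} (hz : z ≠ 0) :
    HasFiniteMulSupport (fun v : FinitePlace K => ⨆ i, v (z i)) := by
  by_cases h0 : z 0 = 0
  · have h1 : z 1 ≠ 0 := by
      intro h1
      apply hz
      funext i
      fin_cases i
      · exact h0
      · exact h1
    refine (FinitePlace.hasFiniteMulSupport h1).subset fun v hv => ?_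
    rw [mem_mulSupport] at hv ⊢
    intro h
    apply hv
    show (⨆ i, v (z i)) = 1
    rw [iSup2, h0, map_zero, h]
    simp
  · by_cases h1 : z 1 = 0
    · refine (FinitePlace.hasFiniteMulSupport h0).subset fun v hv => ?_
      rw [mem_mulSupport] at hv ⊢
      intro h
      apply hv
      show (⨆ i, v (z i)) = 1
      rw [iSup2, h1, map_zero, h]
      simp
    · refine HasFiniteMulSupport.iSup fun i => FinitePlace.hasFiniteMulSupport ?_
      fin_cases i
      · exact h0
      · exact h1

/-- comparison of heights place by place -/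
theorem loc_le2 {y z : Fin 2 → K} (hy : y ≠ 0) (hz : z ≠ 0) {C : ℝ} (hC : 1 ≤ C)
    (h1 : ∀ v : FinitePlace K, max (v (y 0)) (v (y 1)) ≤ max (v (z 0)) (v (z 1)))
    (h2 : ∀ w : InfinitePlace K, max (w (y 0)) (w (y 1)) ≤ C * max (w (z 0)) (w (z 1))) :
    logHeight y ≤ logHeight z + Module.finrank ℚ K * Real.log C := by
  have hm : mulHeight y ≤ C ^ Module.finrank ℚ K * mulHeight z := by
    rw [NumberField.mulHeight_eq hy, NumberField.mulHeight_eq hz, ← mul_assoc]
    have n1 : ∀ (x : Fin 2 → K) (v : FinitePlace K), 0 ≤ ⨆ i, v (x i) := by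
      intro x v
      rw [iSup2]
      positivity
    have n2 : ∀ (x : Fin 2 → K) (w : InfinitePlace K), 0 ≤ ⨆ i, w (x i) := by
      intro x w
      rw [iSup2]
      positivity
    have h3 : ∏ᶠ v : FinitePlace K, (⨆ i, v (y i)) ≤ ∏ᶠ v : FinitePlace K, ⨆ i, v (z i) := by
      refine finprod_le_finprod (supp2 hy) (fun v => n1 y v) (supp2 hz) fun v => ?_
      show (⨆ i, v (y i)) ≤ ⨆ i, v (z i)
      rw [iSup2, iSup2]
      exact h1 v
    have h4 : ∏ w : InfinitePlace K, (⨆ i, w (y i)) ^ w.mult ≤
        C ^ Module.finrank ℚ K * ∏ w : InfinitePlace K, (⨆ i, w (z i)) ^ w.mult := by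
      rw [← InfinitePlace.sum_mult_eq, ← Finset.prod_pow_eq_pow_sum, ← Finset.prod_mul_distrib]
      refine Finset.prod_le_prod (fun w _ => pow_nonneg (n2 y w) _) fun w _ => ?_
      rw [← mul_pow]
      refine pow_le_pow_left₀ (n2 y w) ?_ _
      rw [iSup2, iSup2]
      exact h2 w
    have h5 : 0 ≤ ∏ᶠ v : FinitePlace K, ⨆ i, v (y i) := finprod_nonneg fun v => n1 y v
    have h6 : 0 ≤ ∏ w : InfinitePlace K, (⨆ i, w (z i)) ^ w.mult :=
      Finset.prod_nonneg fun w _ => pow_nonneg (n2 z w) _
    exact mul_le_mul h4 h3 h5 (by positivity)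
  have h3 := Real.log_le_log (mulHeight_pos y) hm
  have hz := mulHeight_pos z
  rw [Real.log_mul (by positivity) hz.ne', Real.log_pow] at h3
  rw [logHeight_eq_log_mulHeight, logHeight_eq_log_mulHeight]
  linarith

omit [NumberField K] in
/-- the second certificate -/
lemma cert2 {p q : K[X]} {d : ℕ} (hd : 1 ≤ d) (hcop : IsCoprime p q) (hp : p.natDegree ≤ d)
    (hq : q.natDegree ≤ d) (hpq : p.natDegree = d ∨ q.natDegree = d) :
    ∃ a b : K[X], a.natDegree ≤ d - 1 ∧ b.natDegree ≤ d - 1 ∧ a * p + b * q = X ^ (2 * d - 1) := by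
  have main : ∀ p q : K[X], IsCoprime p q → p.natDegree = d → q.natDegree ≤ d →
      ∃ a b : K[X], a.natDegree ≤ d - 1 ∧ b.natDegree ≤ d - 1 ∧
        a * p + b * q = X ^ (2 * d - 1) := by
    intro p q hcop hp hq
    obtain ⟨a, b, hab⟩ := hcop
    have hp0 : p ≠ 0 := by
      intro h
      rw [h, natDegree_zero] at hp
      omega
    obtain ⟨N, hN⟩ : ∃ N, N = 2 * d - 1 := ⟨_, rfl⟩
    rw [← hN]
    obtain ⟨b', hb'⟩ : ∃ b' : K[X], b' = (X ^ N * b) % p := ⟨_, rfl⟩
    obtain ⟨c, hc⟩ : ∃ c : K[X], c = (X ^ N * b) / p := ⟨_, rfl⟩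
    have hdiv : p * c + b' = X ^ N * b := by
      rw [hc, hb']
      exact EuclideanDomain.div_add_mod _ _
    have hb'd : b'.natDegree ≤ d - 1 := by
      have h1 : b'.degree < p.degree := by
        rw [hb']
        exact EuclideanDomain.mod_lt _ hp0
      by_cases h0 : b' = 0
      · rw [h0, natDegree_zero]
        omega
      · have := natDegree_lt_natDegree h0 h1
        omega
    have hid : (X ^ N * a + c * q) * p + b' * q = X ^ N := by
      have : (X ^ N * a + c * q) * p + b' * q = X ^ N * a * p + (p * c + b') * q := by ring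
      rw [this, hdiv]
      have : X ^ N * a * p + X ^ N * b * q = X ^ N * (a * p + b * q) := by ring
      rw [this, hab, mul_one]
    refine ⟨X ^ N * a + c * q, b', ?_, hb'd, hid⟩
    by_cases h0 : X ^ N * a + c * q = 0
    · rw [h0, natDegree_zero]
      omega
    · have h1 : (X ^ N * a + c * q) * p = X ^ N - b' * q := by
        linear_combination hid
      have h2 : ((X ^ N * a + c * q) * p).natDegree ≤ N := by
        rw [h1]
        refine (natDegree_sub_le _ _).trans (max_le ?_ ?_)
        · rw [natDegree_X_pow]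
        · refine natDegree_mul_le.trans ?_
          omega
      rw [natDegree_mul h0 hp0, hp] at h2
      omega
  rcases hpq with h | h
  · exact main p q hcop h hq
  · obtain ⟨a, b, h1, h2, h3⟩ := main q p hcop.symm h hp
    exact ⟨b, a, h2, h1, by rw [← h3]; ring⟩

/-- **the lower bound for the height of a value** -/
theorem height_low {p q : K[X]} {d : ℕ} (hd : 1 ≤ d) (hcop : IsCoprime p q) (hp : p.natDegree ≤ d)
    (hq : q.natDegree ≤ d) (hpq : p.natDegree = d ∨ q.natDegree = d) :
    ∃ C : ℝ, 0 ≤ C ∧ ∀ t : K, d * logHeight₁ t ≤ logHeight ![p.eval t, q.eval t] + C := by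
  classical
  obtain ⟨a, b, hab⟩ := id hcop
  obtain ⟨a', b', ha', hb', hab'⟩ := cert2 hd hcop hp hq hpq
  obtain ⟨β, hβ0, hβ1, hβ⟩ := clear (K := K)
    (a.support.image a.coeff ∪ b.support.image b.coeff ∪
      (a'.support.image a'.coeff ∪ b'.support.image b'.coeff))
  have hco : ∀ P : K[X], P.support.image P.coeff ⊆ (a.support.image a.coeff ∪
      b.support.image b.coeff ∪ (a'.support.image a'.coeff ∪ b'.support.image b'.coeff)) →
      ∀ (v : FinitePlace K) (i : ℕ), v ((C β * P).coeff i) ≤ 1 := by
    intro P hP v i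
    rw [coeff_C_mul]
    by_cases h : P.coeff i = 0
    · rw [h, mul_zero, map_zero]
      exact zero_le_one
    · exact hβ _ (hP (Finset.mem_image_of_mem _ (mem_support_iff.2 h))) v
  have ca := hco a (fun x hx => by simp only [Finset.mem_union]; tauto)
  have cb := hco b (fun x hx => by simp only [Finset.mem_union]; tauto)
  have ca' := hco a' (fun x hx => by simp only [Finset.mem_union]; tauto)
  have cb' := hco b' (fun x hx => by simp only [Finset.mem_union]; tauto)
  obtain ⟨C1, hC1, i1⟩ := inf_eval (C β * a)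
  obtain ⟨C2, hC2, i2⟩ := inf_eval (C β * b)
  obtain ⟨C3, hC3, i3⟩ := inf_eval (C β * a')
  obtain ⟨C4, hC4, i4⟩ := inf_eval (C β * b')
  obtain ⟨E, hE⟩ : ∃ E : ℝ, E = C1 + C2 + C3 + C4 := ⟨_, rfl⟩
  have hE1 : 1 ≤ E := by rw [hE]; linarith
  have hl : 0 ≤ Real.log E := Real.log_nonneg hE1
  refine ⟨Module.finrank ℚ K * Real.log E, by positivity, fun t => ?_⟩
  have id1 : (C β * a).eval t * p.eval t + (C β * b).eval t * q.eval t = β := by
    rw [← eval_mul, ← eval_mul, ← eval_add]
    have : C β * a * p + C β * b * q = C β := by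
      have : C β * a * p + C β * b * q = C β * (a * p + b * q) := by ring
      rw [this, hab, mul_one]
    rw [this, eval_C]
  have id2 : (C β * a').eval t * p.eval t + (C β * b').eval t * q.eval t =
      β * t ^ (2 * d - 1) := by
    rw [← eval_mul, ← eval_mul, ← eval_add]
    have : C β * a' * p + C β * b' * q = C β * X ^ (2 * d - 1) := by
      have : C β * a' * p + C β * b' * q = C β * (a' * p + b' * q) := by ring
      rw [this, hab']
    rw [this, eval_mul, eval_C, eval_pow, eval_X]
  have hne : ![p.eval t, q.eval t] ≠ 0 := by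
    intro h
    have h0 : p.eval t = 0 := congrFun h 0
    have h1 : q.eval t = 0 := congrFun h 1
    rw [h0, h1, mul_zero, mul_zero, add_zero] at id1
    exact hβ0 id1.symm
  have hne' : β • ![t ^ d, 1] ≠ 0 := by
    intro h
    have h1 : β * 1 = 0 := congrFun h 1
    rw [mul_one] at h1
    exact hβ0 h1
  have hht : logHeight (β • ![t ^ d, (1 : K)]) = d * logHeight₁ t := by
    rw [logHeight_smul_eq_logHeight _ hβ0, ← logHeight₁_eq_logHeight, logHeight₁_pow]
  rw [← hht]
  have degC : ∀ P : K[X], (C β * P).natDegree ≤ P.natDegree := fun P => natDegree_C_mul_le β P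
  refine loc_le2 hne' hne hE1 (fun v => ?_) (fun w => ?_)
  · show max (v (β * t ^ d)) (v (β * 1)) ≤ max (v (p.eval t)) (v (q.eval t))
    obtain ⟨B, hB⟩ : ∃ B : ℝ, B = max (v (p.eval t)) (v (q.eval t)) := ⟨_, rfl⟩
    have hB0 : 0 ≤ B := by rw [hB]; positivity
    have hBp : v (p.eval t) ≤ B := by rw [hB]; exact le_max_left _ _
    have hBq : v (q.eval t) ≤ B := by rw [hB]; exact le_max_right _ _
    rw [← hB]
    rcases le_or_gt (v t) 1 with h | h
    · have hM : max (v t) 1 = 1 := max_eq_right h
      have k1 := fin_eval v (C β * a) (le_refl _) zero_le_one (ca v) t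
      have k2 := fin_eval v (C β * b) (le_refl _) zero_le_one (cb v) t
      rw [hM, one_pow, mul_one] at k1 k2
      have k3 : v β ≤ B := by
        rw [← id1]
        refine (FinitePlace.add_le v _ _).trans (max_le ?_ ?_)
        · rw [map_mul]
          calc _ ≤ 1 * B := mul_le_mul k1 hBp (by positivity) zero_le_one
            _ = B := one_mul B
        · rw [map_mul]
          calc _ ≤ 1 * B := mul_le_mul k2 hBq (by positivity) zero_le_one
            _ = B := one_mul B
      refine max_le ?_ (by rwa [mul_one])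
      rw [map_mul, map_pow]
      exact (mul_le_of_le_one_right (by positivity) (pow_le_one₀ (by positivity) h)).trans k3
    · have hM : max (v t) 1 = v t := max_eq_left h.le
      have ht0 : 0 < v t := by linarith
      have k1 := fin_eval v (C β * a') ((degC a').trans ha') zero_le_one (ca' v) t
      have k2 := fin_eval v (C β * b') ((degC b').trans hb') zero_le_one (cb' v) t
      rw [hM, one_mul] at k1 k2
      have k3 : v (β * t ^ (2 * d - 1)) ≤ v t ^ (d - 1) * B := by
        rw [← id2]
        refine (FinitePlace.add_le v _ _).trans (max_le ?_ ?_)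
        · rw [map_mul]
          exact mul_le_mul k1 hBp (by positivity) (by positivity)
        · rw [map_mul]
          exact mul_le_mul k2 hBq (by positivity) (by positivity)
      have k4 : v (β * t ^ d) ≤ B := by
        have e : t ^ (2 * d - 1) = t ^ (d - 1) * t ^ d := by
          rw [← pow_add]
          congr 1
          omega
        rw [e, show β * (t ^ (d - 1) * t ^ d) = t ^ (d - 1) * (β * t ^ d) by ring, map_mul,
          map_pow] at k3
        exact le_of_mul_le_mul_left k3 (pow_pos ht0 _)
      refine max_le k4 ?_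
      rw [mul_one]
      refine le_trans ?_ k4
      rw [map_mul, map_pow]
      exact le_mul_of_one_le_right (by positivity) (one_le_pow₀ h.le)
  · show max (w (β * t ^ d)) (w (β * 1)) ≤ E * max (w (p.eval t)) (w (q.eval t))
    obtain ⟨B, hB⟩ : ∃ B : ℝ, B = max (w (p.eval t)) (w (q.eval t)) := ⟨_, rfl⟩
    have hB0 : 0 ≤ B := by rw [hB]; positivity
    have hBp : w (p.eval t) ≤ B := by rw [hB]; exact le_max_left _ _
    have hBq : w (q.eval t) ≤ B := by rw [hB]; exact le_max_right _ _
    rw [← hB]
    rcases le_or_gt (w t) 1 with h | h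
    · have hM : max (w t) 1 = 1 := max_eq_right h
      have k1 := i1 _ (le_refl _) w t
      have k2 := i2 _ (le_refl _) w t
      rw [hM, one_pow, mul_one] at k1 k2
      have k3 : w β ≤ E * B := by
        rw [← id1]
        refine (iadd' w _ _).trans ?_
        rw [map_mul, map_mul]
        calc _ ≤ C1 * B + C2 * B := by gcongr
          _ ≤ E * B := by rw [hE]; nlinarith
      refine max_le ?_ (by rwa [mul_one])
      rw [map_mul, map_pow]
      exact (mul_le_of_le_one_right (by positivity) (pow_le_one₀ (by positivity) h)).trans k3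
    · have hM : max (w t) 1 = w t := max_eq_left h.le
      have ht0 : 0 < w t := by linarith
      have k1 := i3 _ ((degC a').trans ha') w t
      have k2 := i4 _ ((degC b').trans hb') w t
      rw [hM] at k1 k2
      have k3 : w (β * t ^ (2 * d - 1)) ≤ w t ^ (d - 1) * (E * B) := by
        rw [← id2]
        refine (iadd' w _ _).trans ?_
        rw [map_mul, map_mul]
        calc _ ≤ (C3 * w t ^ (d - 1)) * B + (C4 * w t ^ (d - 1)) * B := by gcongr
          _ = w t ^ (d - 1) * ((C3 + C4) * B) := by ring
          _ ≤ w t ^ (d - 1) * (E * B) := by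
            gcongr
            rw [hE]
            linarith
      have k4 : w (β * t ^ d) ≤ E * B := by
        have e : t ^ (2 * d - 1) = t ^ (d - 1) * t ^ d := by
          rw [← pow_add]
          congr 1
          omega
        rw [e, show β * (t ^ (d - 1) * t ^ d) = t ^ (d - 1) * (β * t ^ d) by ring, map_mul,
          map_pow] at k3
        exact le_of_mul_le_mul_left k3 (pow_pos ht0 _)
      refine max_le k4 ?_
      rw [mul_one]
      refine le_trans ?_ k4
      rw [map_mul, map_pow]
      exact le_mul_of_one_le_right (by positivity) (one_le_pow₀ h.le)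

end Q265.BM
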