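import Pool.Agent.Q265.BM.A

/-! # Belyi maps and the truncated counting function -/

set_option autoImplicit false

open NumberField Height Function Polynomial

namespace Q265.BM

open Q241.AK Q265.NF

variable {K : Type*} [Field K] [NumberField K]

lemma gapM (v : FinitePlace K) {y t : K} (hy : y ≠ 0) (n : ℕ) (h : v y < (max (v t) 1) ^ n) :
    N v * v y ≤ (max (v t) 1) ^ n := by
  have hs : ∃ s : K, s ≠ 0 ∧ max (v t) 1 = v s := by
    rcases le_or_gt (v t) 1 with h1 | h1
    · exact ⟨1, one_ne_zero, by rw [map_one]; exact max_eq_right h1⟩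
    · refine ⟨t, ?_, max_eq_left h1.le⟩
      rintro rfl
      rw [map_zero] at h1
      linarith
  obtain ⟨s, hs0, hs⟩ := hs
  rw [hs, ← map_pow] at h ⊢
  exact gap v hy (pow_ne_zero n hs0) h

lemma suppM (t : K) : HasFiniteMulSupport (fun v : FinitePlace K => max (v t) 1) := by
  by_cases h : t = 0
  · refine (Set.finite_empty).subset fun v hv => ?_
    rw [mem_mulSupport] at hv
    apply hv
    rw [h, map_zero]
    simp
  · refine (FinitePlace.hasFiniteMulSupport h).subset fun v hv => ?_
    rw [mem_mulSupport] at hv ⊢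
    intro h1
    apply hv
    rw [h1, max_self]

/-- the primes at which the value of a polynomial is small -/
theorem defect_poly (g : K[X]) {n : ℕ} (hn : g.natDegree ≤ n)
    (hg : ∀ (v : FinitePlace K) (i : ℕ), v (g.coeff i) ≤ 1) : ∃ C : ℝ, 0 ≤ C ∧ ∀ t : K,
      g.eval t ≠ 0 → {v : FinitePlace K | v (g.eval t) < (max (v t) 1) ^ n}.Finite ∧
      Real.log (PP {v : FinitePlace K | v (g.eval t) < (max (v t) 1) ^ n}) ≤
        n * logHeight₁ t + C := by
  obtain ⟨E, hE, hEw⟩ := inf_eval g
  refine ⟨Module.finrank ℚ K * Real.log E, mul_nonneg (by positivity) (Real.log_nonneg hE),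
    fun t ht => ?_⟩
  obtain ⟨y, hy⟩ : ∃ y : K, y = g.eval t := ⟨_, rfl⟩
  rw [← hy] at ht ⊢
  have h1 : ∀ v : FinitePlace K, v y ≤ (max (v t) 1) ^ n := by
    intro v
    have := fin_eval v g hn zero_le_one (hg v) t
    rw [one_mul] at this
    rw [hy]
    exact this
  have h2 : ∀ w : InfinitePlace K, w y ≤ E * (max (w t) 1) ^ n := by
    intro w
    rw [hy]
    exact hEw n hn w t
  have hfy : HasFiniteMulSupport (fun v : FinitePlace K => v y) := FinitePlace.hasFiniteMulSupport ht
  have hfx : HasFiniteMulSupport (fun v : FinitePlace K => (max (v t) 1) ^ n) := by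
    refine (suppM t).subset fun v hv => ?_
    rw [mem_mulSupport] at hv ⊢
    intro h
    apply hv
    rw [h, one_pow]
  have hfin : {v : FinitePlace K | v y < (max (v t) 1) ^ n}.Finite := by
    refine (hfx.union hfy).subset fun v hv => ?_
    by_contra h
    rw [Set.mem_union, not_or, mem_mulSupport, mem_mulSupport, not_not, not_not] at h
    rw [Set.mem_ofPred_eq, h.1, h.2] at hv
    exact lt_irrefl _ hv
  refine ⟨hfin, ?_⟩
  have hpt : ∀ v : FinitePlace K, pr {v : FinitePlace K | v y < (max (v t) 1) ^ n} v ≤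
      (max (v t) 1) ^ n / v y := by
    intro v
    have hv0 : 0 < v y := FinitePlace.pos_iff.2 ht
    unfold pr
    split_ifs with h
    · rw [le_div_iff₀ hv0]
      exact gapM v ht n h
    · rw [le_div_iff₀ hv0, one_mul]
      exact h1 v
  have hM0 : ∀ v : FinitePlace K, 0 ≤ max (v t) 1 := fun v => by positivity
  have hle : PP {v : FinitePlace K | v y < (max (v t) 1) ^ n} ≤
      ∏ᶠ v : FinitePlace K, (max (v t) 1) ^ n / v y :=
    finprod_le_finprod (pr_fin hfin) (fun v => zero_le_one.trans (one_le_pr _ v))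
    (hfx.div hfy) hpt
  have hpf : ∏ᶠ v : FinitePlace K, v y = (∏ w : InfinitePlace K, w y ^ w.mult)⁻¹ :=
    eq_inv_of_mul_eq_one_right (NumberField.prod_abs_eq_one ht)
  have hmul : PP {v : FinitePlace K | v y < (max (v t) 1) ^ n} ≤
      E ^ Module.finrank ℚ K * mulHeight₁ t ^ n := by
    refine hle.trans ?_
    have hmf : 0 ≤ (∏ᶠ v : FinitePlace K, max (v t) 1) ^ n :=
      pow_nonneg (finprod_nonneg fun v => hM0 v) n
    have e1 : ∏ᶠ v : FinitePlace K, (max (v t) 1) ^ n = (∏ᶠ v : FinitePlace K, max (v t) 1) ^ n :=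
      (finprod_pow (suppM t) n).symm
    rw [finprod_div_distrib hfx hfy, hpf, div_inv_eq_mul, NumberField.mulHeight₁_eq, e1,
      mul_comm ((∏ᶠ v : FinitePlace K, max (v t) 1) ^ n), mul_pow, ← mul_assoc]
    refine mul_le_mul_of_nonneg_right ?_ hmf
    rw [← InfinitePlace.sum_mult_eq, ← Finset.prod_pow_eq_pow_sum, ← Finset.prod_pow,
      ← Finset.prod_mul_distrib]
    refine Finset.prod_le_prod (fun w _ => by positivity) fun w _ => ?_
    rw [← pow_mul, mul_comm w.mult n, pow_mul, ← mul_pow]
    exact pow_le_pow_left₀ (by positivity) (h2 w) _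
  have h3 := Real.log_le_log (lt_of_lt_of_le one_pos (one_le_PP _)) hmul
  have hH := mulHeight₁_pos t
  have hE0 : 0 < E := by linarith
  rw [Real.log_mul (by positivity) (by positivity), Real.log_pow, Real.log_pow,
    ← logHeight₁_eq_log_mulHeight₁] at h3
  linarith

/-- the point `t` meets the point `a` at `v` -/
def Meets (v : FinitePlace K) (a t : K) : Prop := v (t - a) < max (v t) 1 * max (v a) 1

/-- the primes outside `S` at which `t` meets `a` -/
def Ms (S : Finset (FinitePlace K)) (a t : K) : Set (FinitePlace K) := {v | v ∉ S ∧ Meets v a t}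

/-- the primes outside `S` at which `t` meets infinity -/
def Mi (S : Finset (FinitePlace K)) (t : K) : Set (FinitePlace K) := {v | v ∉ S ∧ 1 < v t}

lemma Ms_fin (S : Finset (FinitePlace K)) {a t : K} (h : t ≠ a) : (Ms S a t).Finite := by
  refine (((suppM t).union (suppM a)).union
    (FinitePlace.hasFiniteMulSupport (sub_ne_zero.2 h))).subset fun v hv => ?_
  by_contra hcon
  rw [Set.mem_union, not_or, Set.mem_union, not_or, mem_mulSupport, mem_mulSupport,
    mem_mulSupport, not_not, not_not, not_not] at hcon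
  obtain ⟨⟨h1, h2⟩, h3⟩ := hcon
  have := hv.2
  unfold Meets at this
  rw [h1, h2, h3, one_mul] at this
  exact lt_irrefl _ this

lemma Mi_fin (S : Finset (FinitePlace K)) (t : K) : (Mi S t).Finite := by
  refine (suppM t).subset fun v hv => ?_
  rw [mem_mulSupport]
  have := hv.2
  intro h
  have h1 := le_max_left (v t) (1 : ℝ)
  rw [h] at h1
  linarith

/-- the counting function of the points `a i` and of infinity, without the factor `1 / [K : ℚ]` -/
noncomputable def Cn (S : Finset (FinitePlace K)) {m : ℕ} (a : Fin m → K) (t : K) : ℝ :=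
  (∑ i, Real.log (PP (Ms S (a i) t))) + Real.log (PP (Mi S t))

lemma log_PP_nonneg (T : Set (FinitePlace K)) : 0 ≤ Real.log (PP T) := Real.log_nonneg (one_le_PP T)

lemma Cn_nonneg (S : Finset (FinitePlace K)) {m : ℕ} (a : Fin m → K) (t : K) : 0 ≤ Cn S a t :=
  add_nonneg (Finset.sum_nonneg fun i _ => log_PP_nonneg _) (log_PP_nonneg _)

/-- the inequality for the points in `T`, without the factor `1 / [K : ℚ]` -/
def Ineq {m : ℕ} (a : Fin m → K) (T : Set K) : Prop :=
  ∀ S : Finset (FinitePlace K), ∀ ε : ℝ, 0 < ε → ∃ C : ℝ, ∀ t ∈ T, (∀ i, t ≠ a i) →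
    ((m : ℝ) - 1 - ε) * logHeight₁ t ≤ Cn S a t + C

lemma PP_biUnion {m : ℕ} (f : Fin m → Set (FinitePlace K)) (hf : ∀ i, (f i).Finite) :
    Real.log (PP (⋃ i, f i)) ≤ ∑ i, Real.log (PP (f i)) := by
  induction m with
  | zero =>
    have : (⋃ i : Fin 0, f i) = ∅ := by simp
    rw [this]
    simp only [Finset.univ_eq_empty, Finset.sum_empty]
    unfold PP
    have h1 : ∀ v : FinitePlace K, pr ∅ v = 1 := fun v => if_neg (Set.notMem_empty v)
    simp [h1]
  | succ m ih =>
    have h1 : (⋃ i, f i) ⊆ f 0 ∪ ⋃ i : Fin m, f i.succ := by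
      intro v hv
      rw [Set.mem_iUnion] at hv
      obtain ⟨i, hi⟩ := hv
      refine Fin.cases (fun h => Or.inl h) (fun i h => Or.inr ?_) i hi
      rw [Set.mem_iUnion]
      exact ⟨i, h⟩
    rw [Fin.sum_univ_succ]
    have h2 := PP_log (hf 0) (Set.finite_iUnion fun i : Fin m => hf i.succ) h1
    have h3 := ih (fun i => f i.succ) fun i => hf i.succ
    linarith

/-- disjoint sets -/
lemma PP_disj {A B : Set (FinitePlace K)} (hA : A.Finite) (hB : B.Finite) (h : Disjoint A B) :
    Real.log (PP A) + Real.log (PP B) = Real.log (PP (A ∪ B)) := by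
  have h1 := one_le_PP A
  have h2 := one_le_PP B
  rw [← Real.log_mul (by linarith) (by linarith)]
  congr 1
  unfold PP
  have e1 := finprod_mul_distrib (pr_fin hA) (pr_fin hB)
  rw [← e1]
  refine finprod_congr fun v => ?_
  unfold pr
  by_cases hvA : v ∈ A
  · have hvB : v ∉ B := fun hvB => Set.disjoint_left.1 h hvA hvB
    have hvU : v ∈ A ∪ B := Or.inl hvA
    rw [if_pos hvA, if_neg hvB, if_pos hvU, mul_one]
  · by_cases hvB : v ∈ B
    · have hvU : v ∈ A ∪ B := Or.inr hvB
      rw [if_neg hvA, if_pos hvB, if_pos hvU, one_mul]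
    · have hvU : v ∉ A ∪ B := fun h => h.elim hvA hvB
      rw [if_neg hvA, if_neg hvB, if_neg hvU, one_mul]

lemma fneg' (v : FinitePlace K) (x : K) : v (-x) = v x := v.val.map_neg x

/-- the counting function of `0`, `1`, `∞` -/
lemma Cn_three (S : Finset (FinitePlace K)) {y : K} (h0 : y ≠ 0) (h1 : y ≠ 1) :
    Cn S ![0, 1] y = Real.log (PP (Ms S 0 y ∪ Ms S 1 y ∪ Mi S y)) := by
  have d1 : Disjoint (Ms S 0 y) (Ms S 1 y) := by
    rw [Set.disjoint_left]
    rintro v ⟨-, hv⟩ ⟨-, hv'⟩
    unfold Meets at hv hv'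
    rw [sub_zero, map_zero] at hv
    rw [map_one, max_self, mul_one] at hv'
    rw [max_eq_right zero_le_one, mul_one] at hv
    have h2 : v y < 1 := by
      by_contra hcon
      push Not at hcon
      rw [max_eq_left hcon] at hv
      exact lt_irrefl _ hv
    rw [max_eq_right h2.le] at hv'
    have h3 : v (1 : K) ≤ max (v y) (v (y - 1)) := by
      have := FinitePlace.add_le v y (-(y - 1))
      rw [fneg'] at this
      rwa [show y + -(y - 1) = 1 by ring] at this
    rw [map_one] at h3
    exact absurd (lt_of_le_of_lt h3 (max_lt h2 hv')) (lt_irrefl _)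
  have d2 : Disjoint (Ms S 0 y ∪ Ms S 1 y) (Mi S y) := by
    rw [Set.disjoint_left]
    rintro v hv ⟨-, hv'⟩
    rcases hv with ⟨-, hv⟩ | ⟨-, hv⟩
    · unfold Meets at hv
      rw [sub_zero, map_zero, max_eq_right zero_le_one, mul_one, max_eq_left hv'.le] at hv
      exact lt_irrefl _ hv
    · unfold Meets at hv
      rw [map_one, max_self, mul_one, max_eq_left hv'.le] at hv
      have h3 : v y ≤ max (v (y - 1)) (v 1) := by
        have := FinitePlace.add_le v (y - 1) 1
        rwa [sub_add_cancel] at this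
      rw [map_one] at h3
      exact absurd (lt_of_le_of_lt h3 (max_lt hv hv')) (lt_irrefl _)
  unfold Cn
  rw [← PP_disj ((Ms_fin S h0).union (Ms_fin S h1)) (Mi_fin S y) d2,
    ← PP_disj (Ms_fin S h0) (Ms_fin S h1) d1]
  rw [Fin.sum_univ_two]
  rfl

end Q265.BM
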