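import Pool.Agent.Q265.BM.B

/-! # Belyi maps: the main theorem -/

set_option autoImplicit false

open NumberField Height Function Polynomial UniqueFactorizationMonoid

namespace Q265.BM

open Q241.AK Q265.NF

variable {K : Type*} [Field K] [NumberField K]

/-- the values of the rational function `p / q` on `K` -/
def Img (p q : K[X]) : Set K := {y | ∃ t : K, q.eval t ≠ 0 ∧ y = p.eval t / q.eval t}

lemma four_one {a b c e : ℝ} (ha : 0 ≤ a) (hb : 0 ≤ b) (hc : 0 ≤ c) (ha1 : a ≤ 1)
    (hb1 : b ≤ 1) (hc1 : c ≤ 1) (he1 : e ≤ 1) (h : a * b * c * e = 1) : a = 1 ∧ b = 1 ∧ c = 1 := by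
  have h1 : a * b ≤ 1 := mul_le_one₀ ha1 hb hb1
  have h2 : a * b * c ≤ 1 := mul_le_one₀ h1 hc hc1
  have h0 : 0 ≤ a * b := by positivity
  have h3 : a * b * c = 1 := by
    refine le_antisymm h2 ?_
    calc (1 : ℝ) = a * b * c * e := h.symm
      _ ≤ a * b * c * 1 := by gcongr
      _ = _ := mul_one _
  have h4 : a * b = 1 := by
    refine le_antisymm h1 ?_
    calc (1 : ℝ) = a * b * c := h3.symm
      _ ≤ a * b * 1 := by gcongr
      _ = _ := mul_one _
  refine ⟨?_, ?_, ?_⟩
  · refine le_antisymm ha1 ?_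
    calc (1 : ℝ) = a * b := h4.symm
      _ ≤ a * 1 := by gcongr
      _ = _ := mul_one _
  · refine le_antisymm hb1 ?_
    calc (1 : ℝ) = a * b := h4.symm
      _ ≤ 1 * b := by gcongr
      _ = _ := one_mul _
  · rw [h4, one_mul] at h3
    exact h3

lemma log_height_zero {x y : K} (h : x = 0 ∨ y = 0 ∨ x = y) : logHeight ![x, y] = 0 := by
  rw [← logHeight₁_div_eq_logHeight]
  rcases h with h | h | h
  · rw [h, zero_div, logHeight₁_zero]
  · rw [h, div_zero, logHeight₁_zero]
  · by_cases h0 : y = 0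
    · rw [h0, div_zero, logHeight₁_zero]
    · rw [h, div_self h0, logHeight₁_one]

omit [NumberField K] in
/-- the radical -/
lemma exists_rad [CharZero K] {P : K[X]} (hP : P ≠ 0) {n : ℕ}
    (h : (P.rootSet (AlgebraicClosure K)).ncard ≤ n) :
    ∃ (r : K[X]) (NN : ℕ), r ∣ P ∧ P ∣ r ^ NN ∧ r.natDegree ≤ n := by
  classical
  obtain ⟨NN, hNN⟩ := exists_dvd_radical_self_pow hP
  refine ⟨radical P, NN, radical_dvd_self, hNN, ?_⟩
  have hsq : Squarefree (radical P) := squarefree_radical
  have hsep : (radical P).Separable := PerfectField.separable_iff_squarefree.2 hsq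
  have hcard : Fintype.card ((radical P).rootSet (AlgebraicClosure K)) = (radical P).natDegree :=
    card_rootSet_eq_natDegree hsep (IsAlgClosed.splits _)
  have hsub : (radical P).rootSet (AlgebraicClosure K) ⊆ P.rootSet (AlgebraicClosure K) := by
    intro x hx
    rw [mem_rootSet] at hx ⊢
    refine ⟨hP, ?_⟩
    obtain ⟨c, hc⟩ : radical P ∣ P := radical_dvd_self
    rw [hc, map_mul, hx.2, zero_mul]
  rw [← hcard, ← Nat.card_eq_fintype_card, Nat.card_coe_set_eq]
  exact (Set.ncard_le_ncard hsub (rootSet_finite _ _)).trans h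

/-- **The main theorem on Belyi maps** -/
theorem belyi {p q : K[X]} {d : ℕ} (hd : 1 ≤ d) (hcop : IsCoprime p q) (hp : p.natDegree ≤ d)
    (hq : q.natDegree ≤ d) (hpq : p.natDegree = d ∨ q.natDegree = d)
    {r : K[X]} (hr1 : r ∣ p * q * (p - q)) {NN : ℕ} (hNN : p * q * (p - q) ∣ r ^ NN)
    (hrad : r.natDegree ≤ d + 1) {m : ℕ} (a : Fin m → K)
    (hinj : Function.Injective a) (ha : ∀ i, (p * q * (p - q)).eval (a i) = 0)
    (H : Ineq ![0, 1] (Img p q)) : Ineq a Set.univ := by
  classical
  obtain ⟨P0, hP0⟩ : ∃ P0 : K[X], P0 = p * q * (p - q) := ⟨_, rfl⟩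
  rw [← hP0] at hr1 hNN ha
  -- the product is not zero
  have hdeg : ¬ (IsUnit p ∧ IsUnit q) := by
    rintro ⟨h1, h2⟩
    have e1 := natDegree_eq_zero_of_isUnit h1
    have e2 := natDegree_eq_zero_of_isUnit h2
    omega
  have hp0 : p ≠ 0 := by
    rintro rfl
    have h1 : IsUnit q := isCoprime_zero_left.1 hcop
    have e2 := natDegree_eq_zero_of_isUnit h1
    rw [natDegree_zero] at hpq
    omega
  have hq0 : q ≠ 0 := by
    rintro rfl
    have h1 : IsUnit p := isCoprime_zero_right.1 hcop
    have e2 := natDegree_eq_zero_of_isUnit h1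
    rw [natDegree_zero] at hpq
    omega
  have hpq0 : p - q ≠ 0 := by
    intro h
    have h1 : p = q := sub_eq_zero.1 h
    rw [← h1] at hcop
    have h2 : IsUnit p := isCoprime_self.1 hcop
    exact hdeg ⟨h2, h1 ▸ h2⟩
  have hne : P0 ≠ 0 := by
    rw [hP0]
    exact mul_ne_zero (mul_ne_zero hp0 hq0) hpq0
  have hr0 : r ≠ 0 := by
    rintro rfl
    exact hne (zero_dvd_iff.1 hr1)
  have hlinr : ∀ i, X - C (a i) ∣ r := by
    intro i
    have h1 : X - C (a i) ∣ P0 := dvd_iff_isRoot.2 (ha i)
    exact (prime_X_sub_C (a i)).dvd_of_dvd_pow (h1.trans hNN)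
  obtain ⟨mm, hmm⟩ := hNN
  -- the product of the linear factors
  have hlin : ∏ i : Fin m, (X - C (a i)) ∣ r := by
    refine Finset.prod_dvd_of_coprime (fun i _ j _ hij => ?_) (fun i _ => ?_)
    · exact isCoprime_X_sub_C_of_isUnit_sub
        (sub_ne_zero.2 (fun h => hij (hinj h))).isUnit
    · exact hlinr i
  obtain ⟨g, hg⟩ := hlin
  have hg0 : g ≠ 0 := by
    rintro rfl
    rw [mul_zero] at hg
    exact hr0 hg
  have hlin0 : (∏ i : Fin m, (X - C (a i))) ≠ 0 := by
    intro h
    rw [h, zero_mul] at hg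
    exact hr0 hg
  obtain ⟨n, hn⟩ : ∃ n, n = g.natDegree := ⟨_, rfl⟩
  have hmn : m + n ≤ d + 1 := by
    have h1 : r.natDegree = m + n := by
      rw [hg, natDegree_mul hlin0 hg0, ← hn, natDegree_prod_of_monic _ _
        (fun i _ => monic_X_sub_C (a i))]
      simp
    omega
  -- denominators
  obtain ⟨β, hβ0, hβ1, hβ⟩ := clear (K := K) ((p.support.image p.coeff ∪ q.support.image q.coeff) ∪
    (mm.support.image mm.coeff ∪ g.support.image g.coeff) ∪ Finset.univ.image a)
  obtain ⟨B, hBdef⟩ : ∃ B : Set (FinitePlace K), B = {v | v β < 1} := ⟨_, rfl⟩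
  have hBfin : B.Finite := by
    refine (FinitePlace.hasFiniteMulSupport hβ0).subset fun v hv => ?_
    rw [hBdef, Set.mem_ofPred_eq] at hv
    rw [mem_mulSupport]
    exact hv.ne
  have hco : ∀ P : K[X], P.support.image P.coeff ⊆
      ((p.support.image p.coeff ∪ q.support.image q.coeff) ∪
        (mm.support.image mm.coeff ∪ g.support.image g.coeff) ∪ Finset.univ.image a) →
      ∀ (v : FinitePlace K) (i : ℕ), v (β * P.coeff i) ≤ 1 := by
    intro P hP v i
    by_cases h : P.coeff i = 0
    · rw [h, mul_zero, map_zero]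
      exact zero_le_one
    · exact hβ _ (hP (Finset.mem_image_of_mem _ (mem_support_iff.2 h))) v
  have cp := hco p (fun x hx => by simp only [Finset.mem_union]; tauto)
  have cq := hco q (fun x hx => by simp only [Finset.mem_union]; tauto)
  have cm := hco mm (fun x hx => by simp only [Finset.mem_union]; tauto)
  have cg := hco g (fun x hx => by simp only [Finset.mem_union]; tauto)
  have ca : ∀ (v : FinitePlace K) (i : Fin m), v (β * a i) ≤ 1 := fun v i =>
    hβ _ (Finset.mem_union_right _ (Finset.mem_image_of_mem a (Finset.mem_univ i))) v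
  have hunit : ∀ v : FinitePlace K, v ∉ B → v β = 1 := by
    intro v hv
    rw [hBdef, Set.mem_ofPred_eq, not_lt] at hv
    exact le_antisymm (hβ1 v) hv
  have good : ∀ v : FinitePlace K, v ∉ B → ∀ c : K, v (β * c) ≤ 1 → v c ≤ 1 := by
    intro v hv c hc
    rwa [map_mul, hunit v hv, one_mul] at hc
  -- the key property
  obtain ⟨Tg, hTg⟩ : ∃ Tg : K → Set (FinitePlace K), Tg = fun t =>
      {v | v ((C β * g).eval t) < (max (v t) 1) ^ n} := ⟨_, rfl⟩
  have key : ∀ (t : K) (v : FinitePlace K), v ∉ B → v t ≤ 1 → (∀ i, ¬ Meets v (a i) t) →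
      v ∉ Tg t → v (p.eval t) = 1 ∧ v (q.eval t) = 1 ∧ v ((p - q).eval t) = 1 := by
    intro t v hvB hvt hmeet hvg
    have hM : max (v t) 1 = 1 := max_eq_right hvt
    have ev : ∀ P : K[X], (∀ (v : FinitePlace K) (i : ℕ), v (β * P.coeff i) ≤ 1) →
        v (P.eval t) ≤ 1 := by
      intro P hP
      have := fin_eval v P (le_refl _) zero_le_one (fun i => good v hvB _ (hP v i)) t
      rwa [hM, one_pow, mul_one] at this
    have e1 := ev p cp
    have e2 := ev q cq
    have e3 := ev mm cm
    have e4 := ev g cg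
    have e5 : v ((p - q).eval t) ≤ 1 := by
      rw [eval_sub]
      have := FinitePlace.add_le v (p.eval t) (-q.eval t)
      rw [fneg', ← sub_eq_add_neg] at this
      exact this.trans (max_le e1 e2)
    have e6 : ∀ i, v (t - a i) = 1 := by
      intro i
      have h1 := hmeet i
      unfold Meets at h1
      rw [not_lt, hM, one_mul] at h1
      refine le_antisymm ?_ ((le_max_right _ _).trans h1)
      have := FinitePlace.add_le v t (-a i)
      rw [fneg', ← sub_eq_add_neg] at this
      exact this.trans (max_le hvt (good v hvB _ (ca v i)))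
    have e7 : v (g.eval t) = 1 := by
      refine le_antisymm e4 ?_
      rw [hTg, Set.mem_ofPred_eq, not_lt, hM, one_pow, eval_mul, eval_C, map_mul, hunit v hvB,
        one_mul] at hvg
      exact hvg
    have e8 : v (r.eval t) = 1 := by
      rw [hg, eval_mul, eval_prod, map_mul, e7, mul_one, map_prod]
      refine Finset.prod_eq_one fun i _ => ?_
      rw [eval_sub, eval_X, eval_C]
      exact e6 i
    have e9 : v (p.eval t) * v (q.eval t) * v ((p - q).eval t) * v (mm.eval t) = 1 := by
      have h1 : (r ^ NN).eval t = p.eval t * q.eval t * (p - q).eval t * mm.eval t := by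
        rw [hmm, hP0]
        simp only [eval_mul]
      have h2 : v ((r ^ NN).eval t) = 1 := by
        rw [eval_pow, map_pow, e8, one_pow]
      rw [h1] at h2
      simpa only [map_mul] using h2
    exact four_one (by positivity) (by positivity) (by positivity) e1 e2 e5 e3 e9
  -- the constants
  obtain ⟨C1, hC1, low⟩ := height_low hd hcop hp hq hpq
  obtain ⟨C2, hC2, defg⟩ := defect_poly (C β * g) (n := n)
    (by rw [hn]; exact natDegree_C_mul_le β g) (fun v i => by rw [coeff_C_mul]; exact cg v i)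
  intro S ε hε
  have hdr : (1 : ℝ) ≤ d := by exact_mod_cast hd
  obtain ⟨ε', hε'⟩ : ∃ ε' : ℝ, ε' = min (ε / d) 1 := ⟨_, rfl⟩
  have hε'0 : 0 < ε' := by rw [hε']; positivity
  have hε'1 : ε' ≤ 1 := by rw [hε']; exact min_le_right _ _
  have hε'd : ε' * d ≤ ε := by
    have : ε' ≤ ε / d := by rw [hε']; exact min_le_left _ _
    rwa [le_div_iff₀ (by linarith)] at this
  obtain ⟨C0, h0⟩ := H S ε' hε'0
  obtain ⟨PB, hPB⟩ : ∃ PB : ℝ, PB = Real.log (PP B) := ⟨_, rfl⟩
  have hPB0 : 0 ≤ PB := by rw [hPB]; exact log_PP_nonneg _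
  refine ⟨PB + C2 + |C0| + C1 + |(m : ℝ) - 1 - ε| * C1, fun t _ hta => ?_⟩
  have hCn := Cn_nonneg S a t
  have hL := zero_le_logHeight₁ t
  obtain ⟨L, hLdef⟩ : ∃ L : ℝ, L = logHeight₁ t := ⟨_, rfl⟩
  have hlow := low t
  rw [← hLdef] at hlow hL ⊢
  have hb0 := le_abs_self C0
  have hb1 : 0 ≤ |(m : ℝ) - 1 - ε| * C1 := by positivity
  have hb2 := abs_nonneg C0
  by_cases hdegen : p.eval t = 0 ∨ q.eval t = 0 ∨ p.eval t = q.eval t
  · rw [log_height_zero hdegen, zero_add] at hlow
    have h1 : L ≤ C1 := by nlinarith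
    calc ((m : ℝ) - 1 - ε) * L ≤ |(m : ℝ) - 1 - ε| * L :=
          mul_le_mul_of_nonneg_right (le_abs_self _) hL
      _ ≤ |(m : ℝ) - 1 - ε| * C1 := by gcongr
      _ ≤ _ := by linarith
  · push Not at hdegen
    obtain ⟨n1, n2, n3⟩ := hdegen
    obtain ⟨y, hy⟩ : ∃ y : K, y = p.eval t / q.eval t := ⟨_, rfl⟩
    have hy0 : y ≠ 0 := by rw [hy]; exact div_ne_zero n1 n2
    have hy1 : y ≠ 1 := by
      rw [hy]
      intro h
      exact n3 ((div_eq_one_iff_eq n2).1 h)
    have h2 := h0 y ⟨t, n2, hy⟩ (fun i => by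
      fin_cases i
      · exact hy0
      · exact hy1)
    rw [hy, logHeight₁_div_eq_logHeight, ← hy, Cn_three S hy0 hy1] at h2
    obtain ⟨A, hA⟩ : ∃ A : Set (FinitePlace K), A = Ms S 0 y ∪ Ms S 1 y ∪ Mi S y := ⟨_, rfl⟩
    rw [← hA] at h2
    have hgt : (C β * g).eval t ≠ 0 := by
      intro h
      rw [eval_mul, eval_C] at h
      have h3 : g.eval t = 0 := (mul_eq_zero.1 h).resolve_left hβ0
      have h4 : r.eval t = 0 := by rw [hg, eval_mul, h3, mul_zero]
      have h5 : P0.eval t = 0 := by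
        obtain ⟨c, hc⟩ := hr1
        rw [hc, eval_mul, h4, zero_mul]
      rw [hP0, eval_mul, eval_mul, eval_sub] at h5
      rcases mul_eq_zero.1 h5 with h6 | h6
      · rcases mul_eq_zero.1 h6 with h7 | h7
        · exact n1 h7
        · exact n2 h7
      · exact n3 (sub_eq_zero.1 h6)
    obtain ⟨hTfin, hTlog⟩ := defg t hgt
    have hTg' : Tg t = {v | v ((C β * g).eval t) < (max (v t) 1) ^ n} := by rw [hTg]
    rw [← hTg'] at hTfin hTlog
    have hsub : A ⊆ B ∪ ((⋃ i, Ms S (a i) t) ∪ (Mi S t ∪ Tg t)) := by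
      intro v hv
      by_contra hcon
      rw [Set.mem_union, not_or, Set.mem_union, not_or, Set.mem_union, not_or] at hcon
      obtain ⟨k1, k2, k3, k4⟩ := hcon
      have hvS : v ∉ S := by
        rw [hA] at hv
        rcases hv with (hv | hv) | hv
        · exact hv.1
        · exact hv.1
        · exact hv.1
      have hvt : v t ≤ 1 := by
        by_contra h
        push Not at h
        exact k3 ⟨hvS, h⟩
      have hmeet : ∀ i, ¬ Meets v (a i) t := by
        intro i h
        apply k2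
        rw [Set.mem_iUnion]
        exact ⟨i, hvS, h⟩
      obtain ⟨e1, e2, e3⟩ := key t v k1 hvt hmeet k4
      have f1 : v y = 1 := by rw [hy, map_div₀, e1, e2, div_one]
      have f2 : v (y - 1) = 1 := by
        have : y - 1 = (p - q).eval t / q.eval t := by
          rw [hy, eval_sub]
          field_simp
        rw [this, map_div₀, e3, e2, div_one]
      rw [hA] at hv
      rcases hv with (⟨-, hv⟩ | ⟨-, hv⟩) | ⟨-, hv⟩
      · unfold Meets at hv
        rw [sub_zero, f1, map_zero, max_self, max_eq_right zero_le_one, mul_one] at hv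
        exact lt_irrefl _ hv
      · unfold Meets at hv
        rw [f2, f1, map_one, max_self, mul_one] at hv
        exact lt_irrefl _ hv
      · rw [f1] at hv
        exact lt_irrefl _ hv
    have hMsfin : ∀ i, (Ms S (a i) t).Finite := fun i => Ms_fin S (hta i)
    have b1 := PP_log hBfin ((Set.finite_iUnion hMsfin).union ((Mi_fin S t).union hTfin)) hsub
    have b2 := PP_log (Set.finite_iUnion hMsfin) ((Mi_fin S t).union hTfin)
      (subset_refl ((⋃ i, Ms S (a i) t) ∪ (Mi S t ∪ Tg t)))
    have b3 := PP_log (Mi_fin S t) hTfin (subset_refl (Mi S t ∪ Tg t))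
    have b4 := PP_biUnion (fun i => Ms S (a i) t) hMsfin
    have hCneq : Cn S a t = (∑ i, Real.log (PP (Ms S (a i) t))) + Real.log (PP (Mi S t)) := rfl
    rw [← hPB] at b1
    rw [← hLdef] at hTlog
    have b5 : Real.log (PP A) ≤ PB + Cn S a t + (n * L + C2) := by
      rw [hCneq]
      linarith
    have hmnr : (m : ℝ) + n ≤ d + 1 := by exact_mod_cast hmn
    have hε1 : 0 ≤ 1 - ε' := by linarith
    have b6 : (1 - ε') * (d * L - C1) ≤ (1 - ε') * logHeight ![p.eval t, q.eval t] :=
      mul_le_mul_of_nonneg_left (by linarith) hε1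
    have b7 : (((2 : ℕ) : ℝ) - 1 - ε') * logHeight ![p.eval t, q.eval t] =
        (1 - ε') * logHeight ![p.eval t, q.eval t] := by
      push_cast
      ring
    rw [b7] at h2
    have b8 : (1 - ε') * (d * L) ≤ Cn S a t + n * L + (PB + C2 + |C0| + C1) := by
      have : (1 - ε') * C1 ≤ C1 := by nlinarith
      have e : (1 - ε') * (d * L - C1) = (1 - ε') * (d * L) - (1 - ε') * C1 := by ring
      rw [e] at b6
      linarith
    have b9 : ((m : ℝ) - 1 - ε) * L ≤ ((1 - ε') * d - n) * L := by
      apply mul_le_mul_of_nonneg_right _ hL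
      have : (1 - ε') * (d : ℝ) = d - ε' * d := by ring
      rw [this]
      linarith
    have b10 : ((1 - ε') * d - n) * L = (1 - ε') * (d * L) - n * L := by ring
    rw [b10] at b9
    linarith

end Q265.BM
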