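import Pool.Agent.Q265.BM.D

/-! # The Lattes maps -/

set_option autoImplicit false

open Polynomial

namespace Q265.BM

variable {K : Type*} [Field K] [CharZero K]

/-- the numerator of the duplication on `y ^ 2 = x (x - 1) (x - l)` -/
noncomputable def Lp (l : K) : K[X] := (X ^ 2 - C l) ^ 2

/-- the denominator -/
noncomputable def Lq (l : K) : K[X] := 4 * X * (X - 1) * (X - C l)

omit [CharZero K] in
lemma cop_lin {P : K[X]} {c : K} (h : P.eval c ≠ 0) : IsCoprime P (X - C c) := by
  refine IsCoprime.symm ?_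
  rw [(irreducible_X_sub_C c).coprime_iff_not_dvd]
  intro h1
  exact h (dvd_iff_isRoot.1 h1)

lemma lat_cop {l : K} (h0 : l ≠ 0) (h1 : l ≠ 1) : IsCoprime (Lp l) (Lq l) := by
  have e0 : (Lp l).eval 0 ≠ 0 := by
    unfold Lp
    simp [h0]
  have e1 : (Lp l).eval 1 ≠ 0 := by
    unfold Lp
    simp only [eval_pow, eval_sub, eval_X, eval_C, one_pow]
    exact pow_ne_zero 2 (sub_ne_zero.2 (Ne.symm h1))
  have e2 : (Lp l).eval l ≠ 0 := by
    unfold Lp
    simp only [eval_pow, eval_sub, eval_X, eval_C]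
    have : l ^ 2 - l = l * (l - 1) := by ring
    rw [this]
    exact pow_ne_zero 2 (mul_ne_zero h0 (sub_ne_zero.2 h1))
  have c0 : IsCoprime (Lp l) X := by
    have := cop_lin e0
    rwa [C_0, sub_zero] at this
  have c1 : IsCoprime (Lp l) (X - 1) := by
    have := cop_lin e1
    rwa [C_1] at this
  have c2 := cop_lin e2
  have c4 : IsCoprime (Lp l) (4 : K[X]) := by
    refine ⟨0, C (1 / 4), ?_⟩
    have e4 : (4 : K[X]) = C 4 := (map_ofNat C 4).symm
    rw [zero_mul, zero_add, e4, ← C_mul]
    norm_num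
  unfold Lq
  exact ((c4.mul_right c0).mul_right c1).mul_right c2

lemma lat_pol (l : K) : Pol (Lp l) (Lq l) ![0, 1, l] =
    C 4 * (X * (X - 1) * (X - C l)) * ((X ^ 2 - C l) * (X ^ 2 - 2 * X + C l) *
      (X ^ 2 - 2 * C l * X + C l)) ^ 2 := by
  unfold Pol
  rw [Fin.prod_univ_three]
  show Lq l * ((Lp l - C 0 * Lq l) * (Lp l - C 1 * Lq l) * (Lp l - C l * Lq l)) = _
  unfold Lp Lq
  rw [C_0, C_1, show (C 4 : K[X]) = 4 from map_ofNat C 4]
  ring

lemma lat_roots (l : K) :
    ((Pol (Lp l) (Lq l) ![0, 1, l]).rootSet (AlgebraicClosure K)).ncard ≤ 4 * (3 - 1) + 1 := by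
  classical
  obtain ⟨P, hP⟩ : ∃ P : K[X], P = X * (X - 1) * (X - C l) * ((X ^ 2 - C l) *
      (X ^ 2 - 2 * X + C l) * (X ^ 2 - 2 * C l * X + C l)) := ⟨_, rfl⟩
  have m1 : (X - 1 : K[X]).Monic := by
    have := monic_X_sub_C (1 : K)
    rwa [C_1] at this
  have m2 : (X - C l : K[X]).Monic := monic_X_sub_C l
  have m3 : (X ^ 2 - C l : K[X]).Monic := monic_X_pow_sub_C l (by norm_num)
  have m4 : (X ^ 2 - 2 * X + C l : K[X]).Monic ∧ (X ^ 2 - 2 * X + C l : K[X]).natDegree ≤ 2 := by
    have e : (X ^ 2 - 2 * X + C l : K[X]) = X ^ 2 + (C (-2) * X + C l) := by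
      rw [C_neg]
      have : (C 2 : K[X]) = 2 := map_ofNat C 2
      rw [this]
      ring
    have hd : (C (-2) * X + C l : K[X]).degree < 2 :=
      lt_of_le_of_lt degree_linear_le (by norm_num)
    rw [e]
    refine ⟨monic_X_pow_add hd, ?_⟩
    refine (natDegree_add_le _ _).trans (max_le (by rw [natDegree_X_pow]) ?_)
    exact (natDegree_linear_le).trans (by norm_num)
  have m5 : (X ^ 2 - 2 * C l * X + C l : K[X]).Monic ∧
      (X ^ 2 - 2 * C l * X + C l : K[X]).natDegree ≤ 2 := by
    have e : (X ^ 2 - 2 * C l * X + C l : K[X]) = X ^ 2 + (C (-(2 * l)) * X + C l) := by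
      rw [C_neg, C_mul]
      have : (C 2 : K[X]) = 2 := map_ofNat C 2
      rw [this]
      ring
    have hd : (C (-(2 * l)) * X + C l : K[X]).degree < 2 :=
      lt_of_le_of_lt degree_linear_le (by norm_num)
    rw [e]
    refine ⟨monic_X_pow_add hd, ?_⟩
    refine (natDegree_add_le _ _).trans (max_le (by rw [natDegree_X_pow]) ?_)
    exact (natDegree_linear_le).trans (by norm_num)
  have hmon : P.Monic := by
    rw [hP]
    exact ((monic_X.mul m1).mul m2).mul ((m3.mul m4.1).mul m5.1)
  have hdeg : P.natDegree ≤ 9 := by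
    rw [hP]
    have d1 : (X - 1 : K[X]).natDegree = 1 := by
      have := natDegree_X_sub_C (1 : K)
      rwa [C_1] at this
    have d2 : (X - C l : K[X]).natDegree = 1 := natDegree_X_sub_C l
    have d3 : (X ^ 2 - C l : K[X]).natDegree = 2 := natDegree_X_pow_sub_C
    have k1 : (X * (X - 1) * (X - C l) : K[X]).natDegree ≤ 3 := by
      refine natDegree_mul_le.trans ?_
      have := natDegree_mul_le (p := (X : K[X])) (q := X - 1)
      rw [natDegree_X, d1] at this
      rw [d2]
      omega
    have k2 : ((X ^ 2 - C l) * (X ^ 2 - 2 * X + C l) * (X ^ 2 - 2 * C l * X + C l) :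
        K[X]).natDegree ≤ 6 := by
      refine natDegree_mul_le.trans ?_
      have := natDegree_mul_le (p := (X ^ 2 - C l : K[X])) (q := X ^ 2 - 2 * X + C l)
      rw [d3] at this
      have h4 := m4.2
      have h5 := m5.2
      omega
    refine natDegree_mul_le.trans ?_
    omega
  have hsub : (Pol (Lp l) (Lq l) ![0, 1, l]).rootSet (AlgebraicClosure K) ⊆
      P.rootSet (AlgebraicClosure K) := by
    intro x hx
    rw [mem_rootSet] at hx ⊢
    refine ⟨hmon.ne_zero, ?_⟩
    have h1 := hx.2
    rw [lat_pol] at h1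
    rw [hP]
    simp only [map_mul, map_pow, aeval_C] at h1 ⊢
    rcases mul_eq_zero.1 h1 with h2 | h2
    · rcases mul_eq_zero.1 h2 with h3 | h3
      · exfalso
        have h4 : (4 : K) = 0 := by
          rw [← map_zero (algebraMap K (AlgebraicClosure K))] at h3
          exact (algebraMap K (AlgebraicClosure K)).injective h3
        norm_num at h4
      · rw [h3, zero_mul]
    · have h3 := pow_eq_zero_iff (two_ne_zero) |>.1 h2
      rw [h3, mul_zero]
  refine (Set.ncard_le_ncard hsub (rootSet_finite _ _)).trans ?_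
  have h1 : (P.rootSet (AlgebraicClosure K)).ncard ≤ P.natDegree := by
    rw [← Nat.card_coe_set_eq, Nat.card_eq_fintype_card]
    have : P.rootSet (AlgebraicClosure K) = ((P.map (algebraMap K (AlgebraicClosure K))).roots.toFinset : Set _) := by
      rw [rootSet_def]
    rw [← Nat.card_eq_fintype_card, Nat.card_coe_set_eq, this, Set.ncard_coe_finset]
    refine (Multiset.toFinset_card_le _).trans ?_
    refine (card_roots' _).trans ?_
    exact natDegree_map_le
  exact h1.trans hdeg

end Q265.BM
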